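import Mathlib
import Pool.Agent.H21.FM.Inter
import Pool.Agent.Q1.M4.Prim

set_option autoImplicit false
open Finset

/-! # Existence of the primitive on the tile grid of a polygon -/

namespace Pool.Agent.H76.FM

open Pool.Agent.H75.Perc hiding WL CT hh ph
open Pool.Agent.H75.TwoArm Pool.Agent.H75.Four Pool.Agent.H69.Q1 Pool.Agent.Q1
open Pool.Agent.Q1.M4 (Cell Good IsSide nextSide tail head PType Adj4 Conn4 Reg Om lat inV lpt)
open Pool.Agent.H33.Q1
open Pool.Agent.H21.FM

/-- lattice points of the closed polygon at scale `n` -/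
noncomputable def GV (Q : Finset Cell) (n : ℤ) : Finset (ℤ × ℤ) :=
  Q.biUnion fun c => Icc (n * c.1) (n * c.1 + n) ×ˢ Icc (n * c.2) (n * c.2 + n)

lemma mem_GV {Q : Finset Cell} {n : ℤ} {p : ℤ × ℤ} : p ∈ GV Q n ↔
    ∃ c ∈ Q, (n * c.1 ≤ p.1 ∧ p.1 ≤ n * c.1 + n) ∧ (n * c.2 ≤ p.2 ∧ p.2 ≤ n * c.2 + n) := by
  unfold GV
  simp only [mem_biUnion, mem_product, mem_Icc]

lemma cell_eq {n a x y : ℤ} (h1 : n * x < a) (h2 : a < n * x + n) (h3 : n * y ≤ a)
    (h4 : a ≤ n * y + n) (hn : 0 < n) : y = x := by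
  have e1 : n * y < n * (x + 1) := by linarith
  have e2 : n * x < n * (y + 1) := by linarith
  have f1 := lt_of_mul_lt_mul_left e1 hn.le
  have f2 := lt_of_mul_lt_mul_left e2 hn.le
  omega

/-- the relation of the paths in `S` -/
def Rs (S : Set (ℤ × ℤ)) (a b : ℤ × ℤ) : Prop := _root_.Q1.Adj4 a b ∧ a ∈ S ∧ b ∈ S

lemma Rs.symm {S : Set (ℤ × ℤ)} {a b : ℤ × ℤ} (h : Rs S a b) : Rs S b a := by
  obtain ⟨h1, h2, h3⟩ := h
  exact ⟨h1.elim (fun h => Or.inr (Or.inl h)) (fun h => h.elim (fun h => Or.inl h) (fun h =>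
    h.elim (fun h => Or.inr (Or.inr (Or.inr h))) (fun h => Or.inr (Or.inr (Or.inl h))))), h3, h2⟩

lemma rtg_symm {S : Set (ℤ × ℤ)} {a b : ℤ × ℤ} (h : Relation.ReflTransGen (Rs S) a b) :
    Relation.ReflTransGen (Rs S) b a := by
  induction h with
  | refl => exact Relation.ReflTransGen.refl
  | tail _ h2 ih => exact Relation.ReflTransGen.head (Rs.symm h2) ih

lemma walk_x {S : Set (ℤ × ℤ)} (y a : ℤ) : ∀ m : ℕ,
    (∀ t : ℤ, a ≤ t → t ≤ a + m → (t, y) ∈ S) →
    Relation.ReflTransGen (Rs S) (a, y) (a + m, y) := by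
  intro m
  induction m with
  | zero => intro _; simp only [Nat.cast_zero, add_zero]; exact Relation.ReflTransGen.refl
  | succ m ih =>
    intro h
    push_cast at h ⊢
    refine (ih fun t h1 h2 => h t h1 (by omega)).tail ⟨Or.inl ?_, h _ (by omega) (by omega),
      h _ (by omega) (by omega)⟩
    simp only [Prod.mk.injEq, and_true]; ring

lemma walk_y {S : Set (ℤ × ℤ)} (x a : ℤ) : ∀ m : ℕ,
    (∀ t : ℤ, a ≤ t → t ≤ a + m → (x, t) ∈ S) →
    Relation.ReflTransGen (Rs S) (x, a) (x, a + m) := by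
  intro m
  induction m with
  | zero => intro _; simp only [Nat.cast_zero, add_zero]; exact Relation.ReflTransGen.refl
  | succ m ih =>
    intro h
    push_cast at h ⊢
    refine (ih fun t h1 h2 => h t h1 (by omega)).tail ⟨Or.inr (Or.inr (Or.inl ?_)),
      h _ (by omega) (by omega), h _ (by omega) (by omega)⟩
    simp only [Prod.mk.injEq, true_and]; ring

section conn

variable {Q : Finset Cell} {n : ℤ}

/-- a point near the lower left corner of a cell -/
def mc (n : ℤ) (c : Cell) : ℤ × ℤ := (n * c.1 + 1, n * c.2 + 1)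

lemma notMem_GV_of {p q : ℤ × ℤ} (hp : p ∉ GV Q n) (h : ∀ c : Cell,
    ((n * c.1 ≤ q.1 ∧ q.1 ≤ n * c.1 + n) ∧ (n * c.2 ≤ q.2 ∧ q.2 ≤ n * c.2 + n)) →
    ((n * c.1 ≤ p.1 ∧ p.1 ≤ n * c.1 + n) ∧ (n * c.2 ≤ p.2 ∧ p.2 ≤ n * c.2 + n))) :
    q ∉ GV Q n := by
  intro hq
  obtain ⟨c, hc, h1⟩ := mem_GV.1 hq
  exact hp (mem_GV.2 ⟨c, hc, h c h1⟩)

/-- from a point of the complement to the point `mc` of its cell -/
lemma to_mc (hn : 2 ≤ n) {p : ℤ × ℤ} (hp : p ∉ GV Q n) : ct n p ∉ Q ∧
    Relation.ReflTransGen (Rs ((GV Q n : Set (ℤ × ℤ))ᶜ)) p (mc n (ct n p)) := by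
  have hn0 : 0 < n := by omega
  obtain ⟨⟨a1, a2⟩, a3, a4⟩ := (ct_eq hn0 (p := p) (c := ct n p)).1 rfl
  set c := ct n p with hc
  rw [mul_comm] at a1 a2 a3 a4
  have hcQ : c ∉ Q := fun h => hp (mem_GV.2 ⟨c, h, ⟨a1, by omega⟩, a3, by omega⟩)
  refine ⟨hcQ, ?_⟩
  obtain ⟨x, y⟩ := p
  simp only at a1 a2 a3 a4
  -- horizontal move
  have hstep : ∀ x' y' : ℤ, n * c.1 ≤ x' → x' < n * c.1 + n → n * c.2 ≤ y' → y' < n * c.2 + n →
      (n * c.1 < x' ∨ x' = x) → (n * c.2 < y' ∨ y' = y) → (x', y') ∈ ((GV Q n : Set (ℤ × ℤ))ᶜ) := by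
    intro x' y' b1 b2 b3 b4 b5 b6
    have : (x', y') ∉ GV Q n := by
      refine notMem_GV_of hp ?_
      intro d hd
      simp only at hd ⊢
      constructor
      · rcases b5 with b5 | b5
        · have := cell_eq b5 b2 hd.1.1 hd.1.2 hn0
          rw [this]; omega
        · rw [← b5]; exact hd.1
      · rcases b6 with b6 | b6
        · have := cell_eq b6 b4 hd.2.1 hd.2.2 hn0
          rw [this]; omega
        · rw [← b6]; exact hd.2
    simpa using this
  have g1 : Relation.ReflTransGen (Rs ((GV Q n : Set (ℤ × ℤ))ᶜ)) (x, y) (n * c.1 + 1, y) := by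
    rcases lt_or_ge x (n * c.1 + 1) with h | h
    · have := walk_x (S := ((GV Q n : Set (ℤ × ℤ))ᶜ)) y x 1 (fun t h1 h2 => by
        push_cast at h2
        exact hstep t y (by omega) (by omega) (by omega) (by omega) (by omega) (Or.inr rfl))
      have e : x + ((1 : ℕ) : ℤ) = n * c.1 + 1 := by push_cast; omega
      rwa [e] at this
    · have := walk_x (S := ((GV Q n : Set (ℤ × ℤ))ᶜ)) y (n * c.1 + 1) (x - (n * c.1 + 1)).toNat
        (fun t h1 h2 => by
          exact hstep t y (by omega) (by omega) (by omega) (by omega) (by omega) (Or.inr rfl))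
      have e : n * c.1 + 1 + ((x - (n * c.1 + 1)).toNat : ℤ) = x := by omega
      rw [e] at this
      exact rtg_symm this
  have g2 : Relation.ReflTransGen (Rs ((GV Q n : Set (ℤ × ℤ))ᶜ)) (n * c.1 + 1, y)
      (n * c.1 + 1, n * c.2 + 1) := by
    rcases lt_or_ge y (n * c.2 + 1) with h | h
    · have := walk_y (S := ((GV Q n : Set (ℤ × ℤ))ᶜ)) (n * c.1 + 1) y 1 (fun t h1 h2 => by
        push_cast at h2
        exact hstep _ t (by omega) (by omega) (by omega) (by omega) (by omega) (by omega))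
      have e : y + ((1 : ℕ) : ℤ) = n * c.2 + 1 := by push_cast; omega
      rwa [e] at this
    · have := walk_y (S := ((GV Q n : Set (ℤ × ℤ))ᶜ)) (n * c.1 + 1) (n * c.2 + 1)
        (y - (n * c.2 + 1)).toNat
        (fun t h1 h2 => by
          exact hstep _ t (by omega) (by omega) (by omega) (by omega) (by omega) (by omega))
      have e : n * c.2 + 1 + ((y - (n * c.2 + 1)).toNat : ℤ) = y := by omega
      rw [e] at this
      exact rtg_symm this
  exact g1.trans g2

lemma mc_right (hn : 2 ≤ n) {c : Cell} (h1 : c ∉ Q) (h2 : c + (1, 0) ∉ Q) :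
    Relation.ReflTransGen (Rs ((GV Q n : Set (ℤ × ℤ))ᶜ)) (mc n c) (mc n (c + (1, 0))) := by
  have hn0 : 0 < n := by omega
  have := walk_x (S := ((GV Q n : Set (ℤ × ℤ))ᶜ)) (n * c.2 + 1) (n * c.1 + 1) n.toNat
    (fun t g1 g2 => by
      have : (t, n * c.2 + 1) ∉ GV Q n := by
        intro hm
        obtain ⟨d, hd, ⟨e1, e2⟩, e3, e4⟩ := mem_GV.1 hm
        simp only at e1 e2 e3 e4
        have hy := cell_eq (x := c.2) (a := n * c.2 + 1) (by omega) (by omega) e3 e4 hn0
        have k1 : n * c.1 < n * (d.1 + 1) := by linarith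
        have k2 : n * d.1 < n * (c.1 + 2) := by
          have : n * (c.1 + 2) = n * c.1 + 2 * n := by ring
          omega
        have k3 := lt_of_mul_lt_mul_left k1 hn0.le
        have k4 := lt_of_mul_lt_mul_left k2 hn0.le
        have : d = c ∨ d = c + (1, 0) := by
          rcases (show d.1 = c.1 ∨ d.1 = c.1 + 1 by omega) with h | h
          · left; exact Prod.ext h hy
          · right; exact Prod.ext (by simpa using h) (by simpa using hy)
        rcases this with rfl | rfl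
        · exact h1 hd
        · exact h2 hd
      simpa using this)
  unfold mc
  have e : n * c.1 + 1 + ((n.toNat : ℕ) : ℤ) = n * (c + (1, 0)).1 + 1 := by
    simp only [Prod.fst_add]
    have : n * (c.1 + 1) = n * c.1 + n := by ring
    omega
  rw [e] at this
  have e2 : (c + (1, 0)).2 = c.2 := by simp
  rw [e2]
  exact this

lemma mc_up (hn : 2 ≤ n) {c : Cell} (h1 : c ∉ Q) (h2 : c + (0, 1) ∉ Q) :
    Relation.ReflTransGen (Rs ((GV Q n : Set (ℤ × ℤ))ᶜ)) (mc n c) (mc n (c + (0, 1))) := by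
  have hn0 : 0 < n := by omega
  have := walk_y (S := ((GV Q n : Set (ℤ × ℤ))ᶜ)) (n * c.1 + 1) (n * c.2 + 1) n.toNat
    (fun t g1 g2 => by
      have : (n * c.1 + 1, t) ∉ GV Q n := by
        intro hm
        obtain ⟨d, hd, ⟨e1, e2⟩, e3, e4⟩ := mem_GV.1 hm
        simp only at e1 e2 e3 e4
        have hy := cell_eq (x := c.1) (a := n * c.1 + 1) (by omega) (by omega) e1 e2 hn0
        have k1 : n * c.2 < n * (d.2 + 1) := by linarith
        have k2 : n * d.2 < n * (c.2 + 2) := by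
          have : n * (c.2 + 2) = n * c.2 + 2 * n := by ring
          omega
        have k3 := lt_of_mul_lt_mul_left k1 hn0.le
        have k4 := lt_of_mul_lt_mul_left k2 hn0.le
        have : d = c ∨ d = c + (0, 1) := by
          rcases (show d.2 = c.2 ∨ d.2 = c.2 + 1 by omega) with h | h
          · left; exact Prod.ext hy h
          · right; exact Prod.ext (by simpa using hy) (by simpa using h)
        rcases this with rfl | rfl
        · exact h1 hd
        · exact h2 hd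
      simpa using this)
  unfold mc
  have e : n * c.2 + 1 + ((n.toNat : ℕ) : ℤ) = n * (c + (0, 1)).2 + 1 := by
    simp only [Prod.snd_add]
    have : n * (c.2 + 1) = n * c.2 + n := by ring
    omega
  rw [e] at this
  have e2 : (c + (0, 1)).1 = c.1 := by simp
  rw [e2]
  exact this

lemma mc_adj (hn : 2 ≤ n) {c d : Cell} (hc : c ∉ Q) (hd : d ∉ Q) (ha : Adj4 c d) :
    Relation.ReflTransGen (Rs ((GV Q n : Set (ℤ × ℤ))ᶜ)) (mc n c) (mc n d) := by
  obtain ⟨k, rfl⟩ := ha
  rcases dir_cases k with ⟨-, e⟩ | ⟨-, e⟩ | ⟨-, e⟩ | ⟨-, e⟩ <;> rw [e] at hd ⊢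
  · exact mc_right hn hc hd
  · exact mc_up hn hc hd
  · have e2 : c + (-1, 0) + (1, 0) = c := by refine Prod.ext ?_ ?_ <;> simp
    have := mc_right (Q := Q) hn (c := c + (-1, 0)) hd (by rw [e2]; exact hc)
    rw [e2] at this
    exact rtg_symm this
  · have e2 : c + (0, -1) + (0, 1) = c := by refine Prod.ext ?_ ?_ <;> simp
    have := mc_up (Q := Q) hn (c := c + (0, -1)) hd (by rw [e2]; exact hc)
    rw [e2] at this
    exact rtg_symm this

/-- **The complement of the closed polygon is connected.** -/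
theorem cellConn_GV (hn : 2 ≤ n) (hQ : Conn4 ((Q : Set Cell)ᶜ)) :
    _root_.Q1.CellConn ((GV Q n : Set (ℤ × ℤ))ᶜ) := by
  intro p hp q hq
  obtain ⟨h1, h2⟩ := to_mc hn (p := p) (by simpa using hp)
  obtain ⟨h3, h4⟩ := to_mc hn (p := q) (by simpa using hq)
  refine h2.trans (Relation.ReflTransGen.trans ?_ (rtg_symm h4))
  have key : ∀ d, Relation.ReflTransGen (fun a b => Adj4 a b ∧ b ∈ ((Q : Set Cell)ᶜ)) (ct n p) d →
      d ∉ Q ∧ Relation.ReflTransGen (Rs ((GV Q n : Set (ℤ × ℤ))ᶜ)) (mc n (ct n p)) (mc n d) := by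
    intro d hd
    induction hd with
    | refl => exact ⟨h1, Relation.ReflTransGen.refl⟩
    | @tail a b _ hab ih =>
      have hb : b ∉ Q := by simpa using hab.2
      exact ⟨hb, ih.2.trans (mc_adj hn ih.1 hb hab.1)⟩
  exact (key _ (hQ _ (by simpa using h1) _ (by simpa using h3))).2

end conn

/-- a tile all of whose corners are in the closed polygon is a tile of the polygon -/
lemma tile_of_GV {Q : Finset Cell} {n : ℤ} (hn : 2 ≤ n) {i k : ℤ} (h1 : (i, k) ∈ GV Q n)
    (h2 : (i + 1, k) ∈ GV Q n) (h3 : (i, k + 1) ∈ GV Q n) (h4 : (i + 1, k + 1) ∈ GV Q n) :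
    lt (i, k) ∈ TL Q n := by
  have hn0 : 0 < n := by omega
  rw [lt_mem_TL hn0]
  obtain ⟨⟨a1, a2⟩, a3, a4⟩ := (ct_eq hn0 (p := (i, k)) (c := ct n (i, k))).1 rfl
  set c := ct n (i, k) with hc
  rw [mul_comm] at a1 a2 a3 a4
  simp only at a1 a2 a3 a4
  have key : ∀ x y : ℤ, n * c.1 < x → x < n * c.1 + n → n * c.2 < y → y < n * c.2 + n →
      (x, y) ∈ GV Q n → c ∈ Q := by
    intro x y b1 b2 b3 b4 hm
    obtain ⟨d, hd, ⟨e1, e2⟩, e3, e4⟩ := mem_GV.1 hm
    have f1 := cell_eq b1 b2 e1 e2 hn0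
    have f2 := cell_eq b3 b4 e3 e4 hn0
    have : d = c := Prod.ext f1 f2
    rwa [← this]
  by_cases hx : n * c.1 < i
  · by_cases hy : n * c.2 < k
    · exact key i k hx a2 hy a4 h1
    · exact key i (k + 1) hx a2 (by omega) (by omega) h3
  · by_cases hy : n * c.2 < k
    · exact key (i + 1) k (by omega) (by omega) hy a4 h2
    · exact key (i + 1) (k + 1) (by omega) (by omega) (by omega) (by omega) h4

/-- the corners of a tile of the polygon are in the closed polygon -/
lemma GV_of_tile {Q : Finset Cell} {n : ℤ} (hn : 0 < n) {i k : ℤ} (h : lt (i, k) ∈ TL Q n)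
    {x y : ℤ} (hx : i ≤ x ∧ x ≤ i + 1) (hy : k ≤ y ∧ y ≤ k + 1) : (x, y) ∈ GV Q n := by
  rw [lt_mem_TL hn] at h
  obtain ⟨⟨a1, a2⟩, a3, a4⟩ := (ct_eq hn (p := (i, k)) (c := ct n (i, k))).1 rfl
  set c := ct n (i, k) with hc
  rw [mul_comm] at a1 a2 a3 a4
  simp only at a1 a2 a3 a4
  exact mem_GV.2 ⟨c, h, ⟨by simp only; omega, by simp only; omega⟩, by simp only; omega,
    by simp only; omega⟩

/-- the four corners around a tile -/
lemma tile_of_lab {c : ℤ × ℤ} {e : ℤ × ℤ} (h : lab c = e ∨ plab c = e) :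
    (tt e).1 ≤ (tv (vx c)).1 ∧ (tv (vx c)).1 ≤ (tt e).1 + 1 ∧
    (tt e).2 ≤ (tv (vx c)).2 ∧ (tv (vx c)).2 ≤ (tt e).2 + 1 ∧
    (tt e).1 ≤ (tf (fi c)).1 ∧ (tf (fi c)).1 ≤ (tt e).1 + 1 ∧
    (tt e).2 ≤ (tf (fi c)).2 ∧ (tf (fi c)).2 ≤ (tt e).2 + 1 := by
  obtain ⟨a, b⟩ := c
  rcases h with rfl | rfl
  · unfold lab tt tv tf vx fi
    simp only
    split_ifs <;> simp only <;> omega
  · unfold plab tt tv tf vx fi
    simp only
    split_ifs <;> simp only <;> omega

lemma GV_of_lab {Q : Finset Cell} {n : ℤ} (hn : 0 < n) {c : ℤ × ℤ}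
    (h : lab c ∈ TL Q n ∨ plab c ∈ TL Q n) : tv (vx c) ∈ GV Q n ∧ tf (fi c) ∈ GV Q n := by
  obtain ⟨e, he, h1⟩ : ∃ e ∈ TL Q n, lab c = e ∨ plab c = e := by
    rcases h with h | h
    · exact ⟨_, h, Or.inl rfl⟩
    · exact ⟨_, h, Or.inr rfl⟩
  obtain ⟨g1, g2, g3, g4, g5, g6, g7, g8⟩ := tile_of_lab h1
  have he' : lt ((tt e).1, (tt e).2) ∈ TL Q n := by
    rw [lt_tt ((mem_TL hn).1 he).1]; exact he
  exact ⟨GV_of_tile hn he' ⟨g1, g2⟩ ⟨g3, g4⟩, GV_of_tile hn he' ⟨g5, g6⟩ ⟨g7, g8⟩⟩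

/-- the closedness at a tile, in coordinates -/
lemma closed_tile (X : Env) {i k : ℤ} (h : lt (i, k) ∈ X.E) :
    X.inc (i - k, i + k + 1) + X.inc (i - k + 1, i + k + 2) =
      X.inc (i - k + 1, i + k + 1) + X.inc (i - k, i + k + 2) := by
  have h1 := X.closed h
  unfold ClosedAt at h1
  have e : lt (i, k) = (i - k, i + k + 1) := rfl
  rw [e] at h1
  have e2 : i + k + 1 + 1 = i + k + 2 := by ring
  by_cases hp : (i - k) % 2 = 1
  · have a1 : in1 (i - k, i + k + 1) = (i - k, i + k + 1) := by unfold in1; simp only; rw [if_pos hp]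
    have a2 : in2 (i - k, i + k + 1) = (i - k + 1, i + k + 2) := by
      unfold in2; simp only; rw [if_pos hp, e2]
    have a3 : nxC (i - k, i + k + 1) = (i - k, i + k + 2) := by
      unfold nxC; simp only; rw [if_pos (by omega), if_neg (by omega), e2]
    have a4 : nxC (i - k + 1, i + k + 2) = (i - k + 1, i + k + 1) := by
      unfold nxC; simp only; rw [if_neg (by omega), if_pos (by omega)]
      refine Prod.ext ?_ ?_ <;> simp only <;> omega
    rw [a1, a2, a3, a4] at h1
    rw [h1]; ring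
  · have a1 : in1 (i - k, i + k + 1) = (i - k, i + k + 2) := by
      unfold in1; simp only; rw [if_neg hp, e2]
    have a2 : in2 (i - k, i + k + 1) = (i - k + 1, i + k + 1) := by
      unfold in2; simp only; rw [if_neg hp]
    have a3 : nxC (i - k, i + k + 2) = (i - k + 1, i + k + 2) := by
      unfold nxC; simp only; rw [if_pos (by omega), if_pos (by omega)]
    have a4 : nxC (i - k + 1, i + k + 1) = (i - k, i + k + 1) := by
      unfold nxC; simp only; rw [if_neg (by omega), if_neg (by omega)]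
      refine Prod.ext ?_ ?_ <;> simp only; omega
    rw [a1, a2, a3, a4] at h1
    linear_combination -h1

/-- **Existence of the primitive on the tile grid** (scale `n ≥ 2`). -/
theorem exists_gprim {Q : Finset Cell} (hQ : Conn4 ((Q : Set Cell)ᶜ)) {n : ℤ} (hn : 2 ≤ n)
    (X : Env) (hX : X.E = TL Q n) : ∃ Ht : ℤ × ℤ → ℂ, GPrim X Ht := by
  classical
  obtain ⟨φ, h1, h2⟩ := _root_.Q1.exact_of_closed (GV Q n) (cellConn_GV hn hQ)
    (fun p => if (p.1 + p.2) % 2 = 0 then -X.inc (p.1 - p.2 + 1, p.1 + p.2 + 1)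
      else X.inc (p.1 - p.2 + 1, p.1 + p.2 + 1))
    (fun p => if (p.1 + p.2) % 2 = 0 then -X.inc (p.1 - p.2, p.1 + p.2 + 1)
      else X.inc (p.1 - p.2, p.1 + p.2 + 1)) (by
      intro i k g1 g2 g3 g4
      have hE : lt (i, k) ∈ X.E := by rw [hX]; exact tile_of_GV hn g1 g2 g3 g4
      have hcl := closed_tile X hE
      have e1 : i + 1 - k = i - k + 1 := by ring
      have e2 : i + 1 + k + 1 = i + k + 2 := by ring
      have e3 : i - (k + 1) + 1 = i - k := by ring
      have e4 : i + (k + 1) + 1 = i + k + 2 := by ring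
      by_cases hp : (i + k) % 2 = 0
      · simp only
        rw [if_pos hp, if_neg (by omega), if_pos hp, if_neg (by omega), e1, e2, e3, e4]
        linear_combination hcl
      · simp only
        rw [if_neg hp, if_pos (by omega), if_neg hp, if_pos (by omega), e1, e2, e3, e4]
        linear_combination -hcl)
  refine ⟨φ, ?_⟩
  intro c hc
  rw [hX] at hc
  obtain ⟨m1, m2⟩ := GV_of_lab (by omega) hc
  obtain ⟨a, b⟩ := c
  by_cases hp : (a + b) % 2 = 0
  · -- horizontal edge
    obtain ⟨i, hi⟩ : ∃ i, i = (a + b - 2) / 2 := ⟨_, rfl⟩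
    obtain ⟨k, hk⟩ : ∃ k, k = (b - a) / 2 := ⟨_, rfl⟩
    have ha : a = i - k + 1 := by omega
    have hb : b = i + k + 1 := by omega
    subst ha hb
    by_cases hq : (i + k) % 2 = 0
    · have t1 : tv (vx (i - k + 1, i + k + 1)) = (i, k) := by
        unfold tv vx; refine Prod.ext ?_ ?_ <;> simp only <;> omega
      have t2 : tf (fi (i - k + 1, i + k + 1)) = (i + 1, k) := by
        unfold tf fi; refine Prod.ext ?_ ?_ <;> simp only <;> omega
      rw [t1] at m1 ⊢
      rw [t2] at m2 ⊢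
      have := h1 i k m1 m2
      simp only at this
      rw [if_pos hq] at this
      linear_combination -this
    · have t1 : tv (vx (i - k + 1, i + k + 1)) = (i + 1, k) := by
        unfold tv vx; refine Prod.ext ?_ ?_ <;> simp only <;> omega
      have t2 : tf (fi (i - k + 1, i + k + 1)) = (i, k) := by
        unfold tf fi; refine Prod.ext ?_ ?_ <;> simp only <;> omega
      rw [t1] at m1 ⊢
      rw [t2] at m2 ⊢
      have := h1 i k m2 m1
      simp only at this
      rw [if_neg hq] at this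
      linear_combination this
  · -- vertical edge
    obtain ⟨i, hi⟩ : ∃ i, i = (a + b - 1) / 2 := ⟨_, rfl⟩
    obtain ⟨k, hk⟩ : ∃ k, k = (b - a - 1) / 2 := ⟨_, rfl⟩
    have ha : a = i - k := by omega
    have hb : b = i + k + 1 := by omega
    subst ha hb
    by_cases hq : (i + k) % 2 = 0
    · have t1 : tv (vx (i - k, i + k + 1)) = (i, k) := by
        unfold tv vx; refine Prod.ext ?_ ?_ <;> simp only <;> omega
      have t2 : tf (fi (i - k, i + k + 1)) = (i, k + 1) := by
        unfold tf fi; refine Prod.ext ?_ ?_ <;> simp only <;> omega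
      rw [t1] at m1 ⊢
      rw [t2] at m2 ⊢
      have := h2 i k m1 m2
      simp only at this
      rw [if_pos hq] at this
      linear_combination -this
    · have t1 : tv (vx (i - k, i + k + 1)) = (i, k + 1) := by
        unfold tv vx; refine Prod.ext ?_ ?_ <;> simp only <;> omega
      have t2 : tf (fi (i - k, i + k + 1)) = (i, k) := by
        unfold tf fi; refine Prod.ext ?_ ?_ <;> simp only <;> omega
      rw [t1] at m1 ⊢
      rw [t2] at m2 ⊢
      have := h2 i k m2 m1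
      simp only at this
      rw [if_neg hq] at this
      linear_combination this

/-- **Statement (4a-1)**: the primitive on the tile grid exists. -/
theorem exGPrim (P : PType) : ExGPrim P := by
  intro h X hh hX
  exact exists_gprim P.good.conn_compl (n := 2 * h) (by omega) X hX

/-- the lattice points of the closed polygon -/
lemma inG_iff {P : PType} {h : ℕ} {p : ℤ × ℤ} : inG P h p ↔ p ∈ GV P.Q (2 * h) := by
  rw [mem_GV]
  unfold inG inV M4.inRect
  have e : ∀ x : ℤ, 2 * (h : ℤ) * (x + 1) = 2 * h * x + 2 * h := fun x => by ring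
  simp only [e]

end Pool.Agent.H76.FM
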