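import Mathlib
import Pool.Agent.H76.FM.GPrim
import Pool.Agent.Q1.M4.Chain
import Pool.Agent.Q1.M4.Inputs

set_option autoImplicit false
open Finset

/-! # The bound `RegBound` in the tile frame, without environments

If the differences of `G` in the primal boxes of the polygon and along the corners are bounded, then `G`
satisfies `RegBound` on the tile grid. -/

namespace Pool.Agent.H76.FM

open Pool.Agent.H75.Perc hiding WL CT hh ph
open Pool.Agent.H75.TwoArm Pool.Agent.H75.Four Pool.Agent.H69.Q1 Pool.Agent.Q1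
open Pool.Agent.Q1.M4 (Cell PType Near Deep IntBound RegBound)
open Pool.Agent.H33.Q1
open Pool.Agent.H21.FM

/-- The box of half size `N` around the vertex (a, b) lies in the interior of `E`. -/
structure BoxE (E : Finset (ℤ × ℤ)) (a b : ℤ) (N : ℕ) : Prop where
  sub : Bx (a - N) (a + N) (b - N) (b + N) ⊆ E
  lab : ∀ c, inB (a - N) (a + N) (b - N) (b + N) (vx c) → lab c ∈ E ∧ plab c ∈ E

lemma plab_odd' (c : ℤ × ℤ) : ((plab c).1 + (plab c).2) % 2 = 1 := by
  unfold plab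
  split_ifs <;> simp only <;> omega

/-- the corner on a horizontal edge of the tile grid -/
lemma corner_h (i k : ℤ) :
    ((tv (vx (i - k + 1, i + k + 1)) = (i, k) ∧ tf (fi (i - k + 1, i + k + 1)) = (i + 1, k)) ∨
      (tv (vx (i - k + 1, i + k + 1)) = (i + 1, k) ∧ tf (fi (i - k + 1, i + k + 1)) = (i, k))) ∧
    ((lab (i - k + 1, i + k + 1) = lt (i, k) ∧ plab (i - k + 1, i + k + 1) = lt (i, k - 1)) ∨
      (lab (i - k + 1, i + k + 1) = lt (i, k - 1) ∧ plab (i - k + 1, i + k + 1) = lt (i, k))) := by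
  by_cases hq : (i + k) % 2 = 0
  · refine ⟨Or.inl ⟨?_, ?_⟩, Or.inl ⟨?_, ?_⟩⟩
    · unfold tv vx; refine Prod.ext ?_ ?_ <;> simp only <;> omega
    · unfold tf fi; refine Prod.ext ?_ ?_ <;> simp only <;> omega
    · unfold lab lt; simp only; rw [if_neg (by omega), if_neg (by omega)]
      refine Prod.ext ?_ ?_ <;> simp only; omega
    · unfold plab lt; simp only; rw [if_neg (by omega), if_neg (by omega)]
      refine Prod.ext ?_ ?_ <;> simp only <;> omega
  · refine ⟨Or.inr ⟨?_, ?_⟩, Or.inr ⟨?_, ?_⟩⟩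
    · unfold tv vx; refine Prod.ext ?_ ?_ <;> simp only <;> omega
    · unfold tf fi; refine Prod.ext ?_ ?_ <;> simp only <;> omega
    · unfold lab lt; simp only; rw [if_pos (by omega), if_pos (by omega)]
      refine Prod.ext ?_ ?_ <;> simp only <;> omega
    · unfold plab lt; simp only; rw [if_pos (by omega), if_pos (by omega)]
      refine Prod.ext ?_ ?_ <;> simp only; omega

/-- the corner on a vertical edge of the tile grid -/
lemma corner_v (i k : ℤ) :
    ((tv (vx (i - k, i + k + 1)) = (i, k) ∧ tf (fi (i - k, i + k + 1)) = (i, k + 1)) ∨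
      (tv (vx (i - k, i + k + 1)) = (i, k + 1) ∧ tf (fi (i - k, i + k + 1)) = (i, k))) ∧
    ((lab (i - k, i + k + 1) = lt (i, k) ∧ plab (i - k, i + k + 1) = lt (i - 1, k)) ∨
      (lab (i - k, i + k + 1) = lt (i - 1, k) ∧ plab (i - k, i + k + 1) = lt (i, k))) := by
  by_cases hq : (i + k) % 2 = 0
  · refine ⟨Or.inl ⟨?_, ?_⟩, Or.inr ⟨?_, ?_⟩⟩
    · unfold tv vx; refine Prod.ext ?_ ?_ <;> simp only <;> omega
    · unfold tf fi; refine Prod.ext ?_ ?_ <;> simp only <;> omega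
    · unfold lab lt; simp only; rw [if_neg (by omega), if_pos (by omega)]
      refine Prod.ext ?_ ?_ <;> simp only <;> omega
    · unfold plab lt; simp only; rw [if_neg (by omega), if_pos (by omega)]
  · refine ⟨Or.inr ⟨?_, ?_⟩, Or.inl ⟨?_, ?_⟩⟩
    · unfold tv vx; refine Prod.ext ?_ ?_ <;> simp only <;> omega
    · unfold tf fi; refine Prod.ext ?_ ?_ <;> simp only <;> omega
    · unfold lab lt; simp only; rw [if_pos (by omega), if_neg (by omega)]
    · unfold plab lt; simp only; rw [if_pos (by omega), if_neg (by omega)]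
      refine Prod.ext ?_ ?_ <;> simp only <;> omega

section steps

variable {E : Finset (ℤ × ℤ)} {G : ℤ × ℤ → ℂ} {L : ℤ} {p : ℤ × ℤ} {A : ℝ}

/-- horizontal edges -/
lemma hor_le (edge : ∀ c, (lab c ∈ E ∨ plab c ∈ E) → Near (L + 1) (tv (vx c)) p →
    ‖G (tv (vx c)) - G (tf (fi c))‖ ≤ A) {i k : ℤ} (h : lt (i, k) ∈ E ∨ lt (i, k - 1) ∈ E)
    (hn : Near L (i, k) p) : ‖G (i + 1, k) - G (i, k)‖ ≤ A := by
  obtain ⟨h1, h2⟩ := corner_h i k
  have h3 : lab (i - k + 1, i + k + 1) ∈ E ∨ plab (i - k + 1, i + k + 1) ∈ E := by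
    rcases h2 with ⟨a, b⟩ | ⟨a, b⟩ <;> rw [a, b] <;> tauto
  have hn1 : Near (L + 1) (i, k) p := hn.mono (by omega)
  have hn2 : Near (L + 1) (i + 1, k) p := by
    unfold Near at hn ⊢
    simp only [abs_le] at hn ⊢
    omega
  rcases h1 with ⟨a, b⟩ | ⟨a, b⟩
  · have := edge _ h3 (by rw [a]; exact hn1)
    rw [a, b] at this
    rw [norm_sub_rev]; exact this
  · have := edge _ h3 (by rw [a]; exact hn2)
    rw [a, b] at this
    exact this

/-- vertical edges -/
lemma ver_le (edge : ∀ c, (lab c ∈ E ∨ plab c ∈ E) → Near (L + 1) (tv (vx c)) p →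
    ‖G (tv (vx c)) - G (tf (fi c))‖ ≤ A) {i k : ℤ} (h : lt (i, k) ∈ E ∨ lt (i - 1, k) ∈ E)
    (hn : Near L (i, k) p) : ‖G (i, k + 1) - G (i, k)‖ ≤ A := by
  obtain ⟨h1, h2⟩ := corner_v i k
  have h3 : lab (i - k, i + k + 1) ∈ E ∨ plab (i - k, i + k + 1) ∈ E := by
    rcases h2 with ⟨a, b⟩ | ⟨a, b⟩ <;> rw [a, b] <;> tauto
  have hn1 : Near (L + 1) (i, k) p := hn.mono (by omega)
  have hn2 : Near (L + 1) (i, k + 1) p := by
    unfold Near at hn ⊢
    simp only [abs_le] at hn ⊢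
    omega
  rcases h1 with ⟨a, b⟩ | ⟨a, b⟩
  · have := edge _ h3 (by rw [a]; exact hn1)
    rw [a, b] at this
    rw [norm_sub_rev]; exact this
  · have := edge _ h3 (by rw [a]; exact hn2)
    rw [a, b] at this
    exact this

end steps

/-- paths of unit steps in a rectangle -/
lemma path_bound {G : ℤ × ℤ → ℂ} {A : ℝ} (hA : 0 ≤ A) {a b c d : ℤ}
    (hh : ∀ x y, a ≤ x → x + 1 ≤ b → c ≤ y → y ≤ d → ‖G (x + 1, y) - G (x, y)‖ ≤ A)
    (hv : ∀ x y, a ≤ x → x ≤ b → c ≤ y → y + 1 ≤ d → ‖G (x, y + 1) - G (x, y)‖ ≤ A)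
    {u v : ℤ × ℤ} (hu : inB a b c d u) (hv' : inB a b c d v) :
    ‖G u - G v‖ ≤ A * (|((u.1 - v.1 : ℤ) : ℝ)| + |((u.2 - v.2 : ℤ) : ℝ)|) := by
  have hx : ∀ n : ℕ, ∀ x y, a ≤ x → x + n ≤ b → c ≤ y → y ≤ d →
      ‖G (x + n, y) - G (x, y)‖ ≤ A * n := by
    intro n
    induction n with
    | zero => intro x y _ _ _ _; simp
    | succ n ih =>
      intro x y h1 h2 h3 h4
      push_cast at h2 ⊢
      have e1 := ih x y h1 (by omega) h3 h4
      have e2 := hh (x + n) y (by omega) (by omega) h3 h4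
      have e3 : x + ((n : ℤ) + 1) = x + n + 1 := by ring
      rw [e3]
      calc ‖G (x + n + 1, y) - G (x, y)‖
          = ‖(G (x + n + 1, y) - G (x + n, y)) + (G (x + n, y) - G (x, y))‖ := by congr 1; ring
        _ ≤ ‖G (x + n + 1, y) - G (x + n, y)‖ + ‖G (x + n, y) - G (x, y)‖ := norm_add_le _ _
        _ ≤ A + A * n := add_le_add e2 e1
        _ = A * (n + 1) := by ring
  have hy : ∀ n : ℕ, ∀ x y, a ≤ x → x ≤ b → c ≤ y → y + n ≤ d →
      ‖G (x, y + n) - G (x, y)‖ ≤ A * n := by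
    intro n
    induction n with
    | zero => intro x y _ _ _ _; simp
    | succ n ih =>
      intro x y h1 h2 h3 h4
      push_cast at h4 ⊢
      have e1 := ih x y h1 h2 h3 (by omega)
      have e2 := hv x (y + n) h1 h2 (by omega) (by omega)
      have e3 : y + ((n : ℤ) + 1) = y + n + 1 := by ring
      rw [e3]
      calc ‖G (x, y + n + 1) - G (x, y)‖
          = ‖(G (x, y + n + 1) - G (x, y + n)) + (G (x, y + n) - G (x, y))‖ := by congr 1; ring
        _ ≤ ‖G (x, y + n + 1) - G (x, y + n)‖ + ‖G (x, y + n) - G (x, y)‖ := norm_add_le _ _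
        _ ≤ A + A * n := add_le_add e2 e1
        _ = A * (n + 1) := by ring
  have hX : ∀ x x' y, a ≤ x → x ≤ b → a ≤ x' → x' ≤ b → c ≤ y → y ≤ d →
      ‖G (x, y) - G (x', y)‖ ≤ A * |((x - x' : ℤ) : ℝ)| := by
    intro x x' y h1 h2 h3 h4 h5 h6
    rcases le_total x' x with h | h
    · obtain ⟨n, hn⟩ := Int.eq_ofNat_of_zero_le (show 0 ≤ x - x' by omega)
      have := hx n x' y h3 (by omega) h5 h6
      have e : x' + (n : ℤ) = x := by omega
      rw [e] at this
      rw [hn]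
      simpa using this
    · obtain ⟨n, hn⟩ := Int.eq_ofNat_of_zero_le (show 0 ≤ x' - x by omega)
      have := hx n x y h1 (by omega) h5 h6
      have e : x + (n : ℤ) = x' := by omega
      rw [e] at this
      have e2 : x - x' = -(n : ℤ) := by omega
      rw [e2, norm_sub_rev]
      simpa using this
  have hY : ∀ x y y', a ≤ x → x ≤ b → c ≤ y → y ≤ d → c ≤ y' → y' ≤ d →
      ‖G (x, y) - G (x, y')‖ ≤ A * |((y - y' : ℤ) : ℝ)| := by
    intro x y y' h1 h2 h3 h4 h5 h6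
    rcases le_total y' y with h | h
    · obtain ⟨n, hn⟩ := Int.eq_ofNat_of_zero_le (show 0 ≤ y - y' by omega)
      have := hy n x y' h1 h2 h5 (by omega)
      have e : y' + (n : ℤ) = y := by omega
      rw [e] at this
      rw [hn]
      simpa using this
    · obtain ⟨n, hn⟩ := Int.eq_ofNat_of_zero_le (show 0 ≤ y' - y by omega)
      have := hy n x y h1 h2 h3 (by omega)
      have e : y + (n : ℤ) = y' := by omega
      rw [e] at this
      have e2 : y - y' = -(n : ℤ) := by omega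
      rw [e2, norm_sub_rev]
      simpa using this
  obtain ⟨u1, u2⟩ := u
  obtain ⟨v1, v2⟩ := v
  unfold inB at hu hv'
  simp only at hu hv' ⊢
  have e1 := hX u1 v1 u2 hu.1.1 hu.1.2 hv'.1.1 hv'.1.2 hu.2.1 hu.2.2
  have e2 := hY v1 u2 v2 hv'.1.1 hv'.1.2 hu.2.1 hu.2.2 hv'.2.1 hv'.2.2
  calc ‖G (u1, u2) - G (v1, v2)‖
      = ‖(G (u1, u2) - G (v1, u2)) + (G (v1, u2) - G (v1, v2))‖ := by congr 1; ring
    _ ≤ ‖G (u1, u2) - G (v1, u2)‖ + ‖G (v1, u2) - G (v1, v2)‖ := norm_add_le _ _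
    _ ≤ _ := by rw [mul_add]; exact add_le_add e1 e2

lemma tele {G : ℤ × ℤ → ℂ} {B : ℝ} (t : ℕ → ℤ × ℤ) : ∀ m : ℕ,
    (∀ j < m, ‖G (t (j + 1)) - G (t j)‖ ≤ B) → ‖G (t m) - G (t 0)‖ ≤ m * B := by
  intro m
  induction m with
  | zero => intro _; simp
  | succ m ih =>
    intro h
    have e1 := ih fun j hj => h j (by omega)
    have e2 := h m (by omega)
    calc ‖G (t (m + 1)) - G (t 0)‖ = ‖(G (t (m + 1)) - G (t m)) + (G (t m) - G (t 0))‖ := by
          congr 1; ring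
      _ ≤ ‖G (t (m + 1)) - G (t m)‖ + ‖G (t m) - G (t 0)‖ := norm_add_le _ _
      _ ≤ B + m * B := add_le_add e2 e1
      _ = ((m + 1 : ℕ) : ℝ) * B := by push_cast; ring

lemma tile_mem {Q : Finset Cell} {n : ℤ} (hn : 0 < n) {c : Cell} (hc : c ∈ Q) {i k : ℤ}
    (h1 : n * c.1 ≤ i) (h2 : i + 1 ≤ n * (c.1 + 1)) (h3 : n * c.2 ≤ k)
    (h4 : k + 1 ≤ n * (c.2 + 1)) : lt (i, k) ∈ TL Q n := by
  rw [lt_mem_TL hn, ct_of hn (c := c) (by simp only; linarith) (by simp only; linarith)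
    (by simp only; linarith) (by simp only; linarith)]
  exact hc

section main

variable {Q : Finset Cell} {n : ℤ} {G : ℤ × ℤ → ℂ} {L : ℤ} {p : ℤ × ℤ} {A : ℝ}

/-- the medium step -/
lemma medium (hn : 0 < n) (hA : 0 ≤ A)
    (box : ∀ (a b : ℤ) (N : ℕ), 1 ≤ N → BoxE (TL Q n) a b N →
      Near (L - (2 * N + 1)) (tv (a, b)) p → ∀ u : ℤ × ℤ, Qt a N u.1 → Qt b N u.2 →
      ‖G (tv u) - G (tv (a, b))‖ ≤ A * (N : ℝ) ^ (2 / 3 : ℝ))
    (edge : ∀ c, (lab c ∈ TL Q n ∨ plab c ∈ TL Q n) → Near (L + 1) (tv (vx c)) p →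
      ‖G (tv (vx c)) - G (tf (fi c))‖ ≤ A) {c : Cell} (hc : c ∈ Q) {w w' : ℤ × ℤ} {s : ℤ}
    (hs : 24 ≤ s) (hd : Deep (n * c.1) (n * (c.1 + 1)) (n * c.2) (n * (c.2 + 1)) s w)
    (hw : Near (L - s) w p) (h1 : 16 * |w'.1 - w.1| ≤ s) (h2 : 16 * |w'.2 - w.2| ≤ s) :
    ‖G w' - G w‖ ≤ 3 * A * (s : ℝ) ^ (2 / 3 : ℝ) := by
  -- tiles near w
  have htile : ∀ i k : ℤ, w.1 - s ≤ i → i + 1 ≤ w.1 + s → w.2 - s ≤ k → k + 1 ≤ w.2 + s →
      lt (i, k) ∈ TL Q n := by
    intro i k g1 g2 g3 g4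
    obtain ⟨⟨d1, d2⟩, d3, d4⟩ := hd
    exact tile_mem hn hc (by omega) (by omega) (by omega) (by omega)
  obtain ⟨x, y⟩ := w
  obtain ⟨x', y'⟩ := w'
  simp only at h1 h2 htile
  have hx1 := neg_abs_le (x' - x)
  have hx2 := le_abs_self (x' - x)
  have hy1 := neg_abs_le (y' - y)
  have hy2 := le_abs_self (y' - y)
  unfold Near at hw
  simp only [abs_le] at hw
  -- make a point even
  have heven : ∀ i k : ℤ, x - s + 2 ≤ i → i ≤ x + s - 2 → y - s + 2 ≤ k → k ≤ y + s - 2 →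
      ∃ a b : ℤ, a + b = i + (i + k) % 2 ∧ b - a = k ∧ ‖G (tv (a, b)) - G (i, k)‖ ≤ A := by
    intro i k g1 g2 g3 g4
    refine ⟨(i + (i + k) % 2 - k) / 2, (i + (i + k) % 2 + k) / 2, by omega, by omega, ?_⟩
    rcases (show (i + k) % 2 = 0 ∨ (i + k) % 2 = 1 by omega) with h | h
    · have e : tv ((i + (i + k) % 2 - k) / 2, (i + (i + k) % 2 + k) / 2) = (i, k) := by
        unfold tv; refine Prod.ext ?_ ?_ <;> simp only <;> omega
      rw [e, sub_self, norm_zero]; exact hA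
    · have e : tv ((i + (i + k) % 2 - k) / 2, (i + (i + k) % 2 + k) / 2) = (i + 1, k) := by
        unfold tv; refine Prod.ext ?_ ?_ <;> simp only <;> omega
      rw [e]
      refine hor_le edge (Or.inl (htile i k (by omega) (by omega) (by omega) (by omega))) ?_
      unfold Near; simp only [abs_le]; omega
  obtain ⟨a, b, e1, e2, e3⟩ := heven x y (by omega) (by omega) (by omega) (by omega)
  obtain ⟨a', b', f1, f2, f3⟩ := heven x' y' (by omega) (by omega) (by omega) (by omega)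
  obtain ⟨N, hN⟩ := Int.eq_ofNat_of_zero_le (show 0 ≤ (s - 2) / 2 by omega)
  have hN1 : 1 ≤ N := by omega
  have hbox : BoxE (TL Q n) a b N := by
    constructor
    · intro e he
      obtain ⟨⟨m1, m2⟩, ⟨m3, m4⟩, m5⟩ := mem_Bx.1 he
      have e1' : (tt e).1 = (e.1 + e.2 - 1) / 2 := rfl
      have e2' : (tt e).2 = (e.2 - e.1 - 1) / 2 := rfl
      have := htile (tt e).1 (tt e).2 (by omega) (by omega) (by omega) (by omega)
      rwa [Prod.mk.eta, lt_tt m5] at this
    · intro c' hc'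
      obtain ⟨⟨m1, m2⟩, m3, m4⟩ := hc'
      obtain ⟨g1, g2, g3, g4, -⟩ := tile_of_lab (c := c') (e := lab c') (Or.inl rfl)
      obtain ⟨k1, k2, k3, k4, -⟩ := tile_of_lab (c := c') (e := plab c') (Or.inr rfl)
      have q1 : (tv (vx c')).1 = (vx c').1 + (vx c').2 := rfl
      have q2 : (tv (vx c')).2 = (vx c').2 - (vx c').1 := rfl
      constructor
      · have := htile (tt (lab c')).1 (tt (lab c')).2 (by omega) (by omega) (by omega) (by omega)
        rwa [Prod.mk.eta, lt_tt (lab_odd c')] at this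
      · have := htile (tt (plab c')).1 (tt (plab c')).2 (by omega) (by omega) (by omega) (by omega)
        rwa [Prod.mk.eta, lt_tt (plab_odd' c')] at this
  have key := box a b N hN1 hbox (by
    unfold Near tv; simp only [abs_le]; omega) (a', b') (by
      unfold Qt; simp only
      have : |a' - a| ≤ (N : ℤ) / 4 := by rw [abs_le]; omega
      omega) (by
      unfold Qt; simp only
      have : |b' - b| ≤ (N : ℤ) / 4 := by rw [abs_le]; omega
      omega)
  have hs0 : (0 : ℝ) ≤ s := by exact_mod_cast (show (0 : ℤ) ≤ s by omega)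
  have hs1 : (1 : ℝ) ≤ (s : ℝ) ^ (2 / 3 : ℝ) := Real.one_le_rpow
    (by exact_mod_cast (show (1 : ℤ) ≤ s by omega)) (by norm_num)
  have hNs : (N : ℝ) ^ (2 / 3 : ℝ) ≤ (s : ℝ) ^ (2 / 3 : ℝ) :=
    Real.rpow_le_rpow (by positivity) (by exact_mod_cast (show (N : ℤ) ≤ s by omega)) (by norm_num)
  calc ‖G (x', y') - G (x, y)‖ = ‖(G (tv (a', b')) - G (tv (a, b))) -
        (G (tv (a', b')) - G (x', y')) + (G (tv (a, b)) - G (x, y))‖ := by congr 1; ring
    _ ≤ ‖(G (tv (a', b')) - G (tv (a, b))) - (G (tv (a', b')) - G (x', y'))‖ +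
        ‖G (tv (a, b)) - G (x, y)‖ := norm_add_le _ _
    _ ≤ ‖G (tv (a', b')) - G (tv (a, b))‖ + ‖G (tv (a', b')) - G (x', y')‖ +
        ‖G (tv (a, b)) - G (x, y)‖ := add_le_add_left (norm_sub_le _ _) _
    _ ≤ A * (N : ℝ) ^ (2 / 3 : ℝ) + A + A := add_le_add (add_le_add key f3) e3
    _ ≤ A * (s : ℝ) ^ (2 / 3 : ℝ) + A * (s : ℝ) ^ (2 / 3 : ℝ) + A * (s : ℝ) ^ (2 / 3 : ℝ) := by
        have g1 := mul_le_mul_of_nonneg_left hNs hA
        have g2 := mul_le_mul_of_nonneg_left hs1 hA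
        linarith
    _ = _ := by ring

/-- **`RegBound` from boxes and edges.** -/
theorem regBound_of_box (hn : 0 < n) (hA : 0 ≤ A)
    (box : ∀ (a b : ℤ) (N : ℕ), 1 ≤ N → BoxE (TL Q n) a b N →
      Near (L - (2 * N + 1)) (tv (a, b)) p → ∀ u : ℤ × ℤ, Qt a N u.1 → Qt b N u.2 →
      ‖G (tv u) - G (tv (a, b))‖ ≤ A * (N : ℝ) ^ (2 / 3 : ℝ))
    (edge : ∀ c, (lab c ∈ TL Q n ∨ plab c ∈ TL Q n) → Near (L + 1) (tv (vx c)) p →
      ‖G (tv (vx c)) - G (tf (fi c))‖ ≤ A) :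
    RegBound Q (fun i => n * i) (fun i => n * i) L p (50 * A) G := by
  intro c hc
  simp only
  have hA50 : A ≤ 50 * A := by linarith
  have hw1 : n * (c.1 + 1) = n * c.1 + n := by ring
  have hw2 : n * (c.2 + 1) = n * c.2 + n := by ring
  have hhor : ∀ i k : ℤ, n * c.1 ≤ i → i + 1 ≤ n * (c.1 + 1) → n * c.2 ≤ k →
      k ≤ n * (c.2 + 1) → Near L (i, k) p → ‖G (i + 1, k) - G (i, k)‖ ≤ A := by
    intro i k h1 h2 h3 h4 h5
    refine hor_le edge ?_ h5
    by_cases hk : k + 1 ≤ n * (c.2 + 1)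
    · exact Or.inl (tile_mem hn hc h1 h2 h3 hk)
    · exact Or.inr (tile_mem hn hc h1 h2 (by omega) (by omega))
  have hver : ∀ i k : ℤ, n * c.1 ≤ i → i ≤ n * (c.1 + 1) → n * c.2 ≤ k →
      k + 1 ≤ n * (c.2 + 1) → Near L (i, k) p → ‖G (i, k + 1) - G (i, k)‖ ≤ A := by
    intro i k h1 h2 h3 h4 h5
    refine ver_le edge ?_ h5
    by_cases hk : i + 1 ≤ n * (c.1 + 1)
    · exact Or.inl (tile_mem hn hc h1 hk h3 h4)
    · exact Or.inr (tile_mem hn hc (by omega) (by omega) h3 h4)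
  refine ⟨?_, ?_, ?_⟩
  · -- boxes
    intro v r hr hd hv u hu1 hu2
    have hr0 : (0 : ℝ) ≤ r := by exact_mod_cast (show (0 : ℤ) ≤ r by omega)
    have hr1 : (1 : ℝ) ≤ (r : ℝ) ^ (2 / 3 : ℝ) := Real.one_le_rpow
      (by exact_mod_cast hr) (by norm_num)
    by_cases hbig : r < 100
    · obtain ⟨⟨d1, d2⟩, d3, d4⟩ := hd
      unfold Near at hv
      simp only [abs_le] at hv
      have hx1 := neg_abs_le (u.1 - v.1)
      have hx2 := le_abs_self (u.1 - v.1)
      have hy1 := neg_abs_le (u.2 - v.2)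
      have hy2 := le_abs_self (u.2 - v.2)
      have := path_bound (G := G) hA (a := v.1 - r) (b := v.1 + r) (c := v.2 - r) (d := v.2 + r)
        (fun x y g1 g2 g3 g4 => hhor x y (by omega) (by omega) (by omega) (by omega) (by
          unfold Near; simp only [abs_le]; omega))
        (fun x y g1 g2 g3 g4 => hver x y (by omega) (by omega) (by omega) (by omega) (by
          unfold Near; simp only [abs_le]; omega)) (u := u) (v := v)
        (by unfold inB; omega) (by unfold inB; omega)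
      refine this.trans ?_
      have g1 : |((u.1 - v.1 : ℤ) : ℝ)| ≤ 25 := by
        rw [← Int.cast_abs]; exact_mod_cast (show |u.1 - v.1| ≤ 25 by omega)
      have g2 : |((u.2 - v.2 : ℤ) : ℝ)| ≤ 25 := by
        rw [← Int.cast_abs]; exact_mod_cast (show |u.2 - v.2| ≤ 25 by omega)
      calc A * (|((u.1 - v.1 : ℤ) : ℝ)| + |((u.2 - v.2 : ℤ) : ℝ)|) ≤ A * 50 :=
            mul_le_mul_of_nonneg_left (by linarith) hA
        _ = 50 * A * 1 := by ring
        _ ≤ _ := mul_le_mul_of_nonneg_left hr1 (by positivity)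
    · push Not at hbig
      obtain ⟨x, y⟩ := v
      obtain ⟨x', y'⟩ := u
      simp only at hu1 hu2
      have hx1 := neg_abs_le (x' - x)
      have hx2 := le_abs_self (x' - x)
      have hy1 := neg_abs_le (y' - y)
      have hy2 := le_abs_self (y' - y)
      unfold Deep at hd
      unfold Near at hv
      simp only [abs_le] at hd hv
      set s : ℤ := 3 * r / 4 with hs
      set t : ℕ → ℤ × ℤ := fun j => (x + j * (x' - x) / 8, y + j * (y' - y) / 8) with ht
      have ht0 : t 0 = (x, y) := by simp [ht]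
      have ht8 : t 8 = (x', y') := by
        simp only [ht]
        refine Prod.ext ?_ ?_ <;> push_cast <;> omega
      have key : ∀ j < 8, ‖G (t (j + 1)) - G (t j)‖ ≤ 3 * A * (s : ℝ) ^ (2 / 3 : ℝ) := by
        intro j hj
        have hb : (-(r / 4) ≤ (j : ℤ) * (x' - x) / 8 ∧ (j : ℤ) * (x' - x) / 8 ≤ r / 4) ∧
            (-(r / 4) ≤ (j : ℤ) * (y' - y) / 8 ∧ (j : ℤ) * (y' - y) / 8 ≤ r / 4) ∧
            (-(r / 32 + 1) ≤ ((j : ℤ) + 1) * (x' - x) / 8 - (j : ℤ) * (x' - x) / 8 ∧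
              ((j : ℤ) + 1) * (x' - x) / 8 - (j : ℤ) * (x' - x) / 8 ≤ r / 32 + 1) ∧
            (-(r / 32 + 1) ≤ ((j : ℤ) + 1) * (y' - y) / 8 - (j : ℤ) * (y' - y) / 8 ∧
              ((j : ℤ) + 1) * (y' - y) / 8 - (j : ℤ) * (y' - y) / 8 ≤ r / 32 + 1) := by
          interval_cases j <;> push_cast <;> omega
        obtain ⟨⟨b1, b2⟩, ⟨b3, b4⟩, ⟨b5, b6⟩, b7, b8⟩ := hb
        refine medium hn hA box edge hc (s := s) (by omega) ?_ ?_ ?_ ?_
        · unfold Deep; simp only [ht]; omega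
        · unfold Near; simp only [ht, abs_le]; omega
        · simp only [ht]; push_cast
          have : |x + ((j : ℤ) + 1) * (x' - x) / 8 - (x + (j : ℤ) * (x' - x) / 8)| ≤ r / 32 + 1 := by
            rw [abs_le]; omega
          omega
        · simp only [ht]; push_cast
          have : |y + ((j : ℤ) + 1) * (y' - y) / 8 - (y + (j : ℤ) * (y' - y) / 8)| ≤ r / 32 + 1 := by
            rw [abs_le]; omega
          omega
      have h8 := tele (G := G) t 8 key
      rw [ht0, ht8] at h8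
      refine h8.trans ?_
      have hs0 : (0 : ℝ) ≤ s := by exact_mod_cast (show (0 : ℤ) ≤ s by omega)
      have hsr : (s : ℝ) ^ (2 / 3 : ℝ) ≤ (r : ℝ) ^ (2 / 3 : ℝ) :=
        Real.rpow_le_rpow hs0 (by exact_mod_cast (show s ≤ r by omega)) (by norm_num)
      have g1 := mul_le_mul_of_nonneg_left hsr hA
      have g2 : 0 ≤ A * (r : ℝ) ^ (2 / 3 : ℝ) := by positivity
      push_cast
      nlinarith
  · rintro ⟨x, y⟩ h1 h2 h3
    unfold Deep at h1 h2
    simp only [Prod.mk_add_mk, add_zero] at h1 h2 ⊢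
    exact (hhor x y (by omega) (by omega) (by omega) (by omega) h3).trans hA50
  · rintro ⟨x, y⟩ h1 h2 h3
    unfold Deep at h1 h2
    simp only [Prod.mk_add_mk, add_zero] at h1 h2 ⊢
    exact (hver x y (by omega) (by omega) (by omega) (by omega) h3).trans hA50

end main

end Pool.Agent.H76.FM
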