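import Mathlib
import Pool.Agent.H76.FM.HoldG
import Pool.Agent.Q1.M4.Vis

set_option autoImplicit false
open Finset

/-! # Bounds for the primitive in the tile frame up to the boundary

`regBound_of_visit`: visit form, for classes closed under freezing; `holdOK`: Hölder bound from the a priori
bound. -/

namespace Pool.Agent.H76.FM

open Pool.Agent.H75.Perc hiding WL CT hh ph
open Pool.Agent.H75.TwoArm Pool.Agent.H75.Four Pool.Agent.H69.Q1 Pool.Agent.Q1
open Pool.Agent.H99.NC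
open Pool.Agent.Q1.M4 (Cell PType Near Deep IntBound RegBound Wide lat inV)
open Pool.Agent.H33.Q1
open Pool.Agent.H21.FM

/-- The path of the environment visits a corner of the polygon at distance at most `t` from `p`. -/
def VT (X : Env) (t : ℤ) (p : ℤ × ℤ) (w : Finset (ℤ × ℤ)) : Prop :=
  ∃ i < X.len w, (lab (X.z w i) ∈ X.E ∨ plab (X.z w i) ∈ X.E) ∧ Near t (tv (vx (X.z w i))) p

lemma plab_nxC' (c : ℤ × ℤ) : plab (nxC c) = lab c := by
  obtain ⟨a, b⟩ := c
  rcases ty_cases (a, b) with ⟨-, h1, h2, h3, h4, -⟩ | ⟨-, h1, h2, h3, h4, -⟩ |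
    ⟨-, h1, h2, h3, h4, -⟩ | ⟨-, h1, h2, h3, h4, -⟩ <;> rw [h3, h4] <;> unfold plab <;>
    simp only at h1 h2 ⊢ <;> split_ifs <;> first | omega | (refine Prod.ext ?_ ?_ <;> simp only <;> omega)

/-- the primitive on the tile grid is a primitive on the boxes -/
lemma prim_of_gprim {X : Env} {Ht : ℤ × ℤ → ℂ} (hG : GPrim X Ht) {a b c d : ℤ}
    (hs : Bx a b c d ⊆ X.E) : X.Prim a b c d (fun v => Ht (tv v)) (fun f => Ht (tf f)) := by
  intro e he c' hc'
  have heE := hs he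
  have hodd := (mem_Bx.1 he).2.2
  apply hG
  rcases hc' with rfl | rfl | rfl | rfl
  · left; rw [lab_in1 e hodd]; exact heE
  · left; rw [lab_in2 e hodd]; exact heE
  · right; rw [plab_nxC', lab_in1 e hodd]; exact heE
  · right; rw [plab_nxC', lab_in2 e hodd]; exact heE

/-- **`RegBound` from the visit probability.** -/
theorem regBound_of_visit {K : Env → Prop} {C : ℝ} (hC : 0 ≤ C)
    (hAP : ∀ Z, K Z → ∀ (a b : ℤ) (N : ℕ), Bx (a - N) (a + N) (b - N) (b + N) ⊆ Z.E →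
      ∀ Hv Hf, Z.Prim (a - N) (a + N) (b - N) (b + N) Hv Hf → ∀ u v : ℤ × ℤ, Qt a N u.1 →
      Qt b N u.2 → Qt a N v.1 → Qt b N v.2 → ‖Hv u - Hv v‖ ≤ C * (N : ℝ) ^ (2 / 3 : ℝ))
    (hfr : ∀ Z, K Z → ∀ a b c d : ℤ, ∀ ω1 ⊆ Z.E \ Bx a b c d, K (Z.freeze (Bx a b c d) ω1))
    {Q : Finset Cell} {n : ℤ} (hn : 0 < n) {X : Env} (hK : K X) (hE : X.E = TL Q n)
    {Ht : ℤ × ℤ → ℂ} (hG : GPrim X Ht) {L : ℤ} {p : ℤ × ℤ} {η : ℝ}
    (hη : PrP (fun _ => 1 / 2) X.E (VT X (L + 2) p) ≤ η) :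
    RegBound Q (fun i => n * i) (fun i => n * i) L p (50 * ((C + 1) * η)) Ht := by
  have hη0 : 0 ≤ η := (PrP_nonneg (Pb.const (by norm_num) (by norm_num)) _ _).trans hη
  refine regBound_of_box hn (by positivity) ?_ ?_
  · intro a b N hN1 hbox hnear u hu1 hu2
    rw [← hE] at hbox
    have hq0 : ∀ a : ℤ, Qt a N a := by intro a; unfold Qt; simp
    have u1 := hu1.bounds
    have u2 := hu2.bounds
    have s3 := X.diff_le_visit hbox.sub (prim_of_gprim hG hbox.sub)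
      (B := C * (N : ℝ) ^ (2 / 3 : ℝ)) (u := u)
      (v := (a, b)) (by unfold inB; omega) (by unfold inB; simp only; omega) (by
        intro ω1 hω1 Hv' Hf' hP'
        refine hAP _ (hfr X hK _ _ _ _ ω1 hω1) a b N ?_ Hv' Hf' hP' _ _ hu1 hu2
          (hq0 _) (hq0 _)
        rw [Env.freeze_E]
        exact subset_inter hbox.sub (Subset.refl _))
    have s4 : PrP (fun _ => 1 / 2) X.E (fun ω => X.Vst (a - N) (a + N) (b - N) (b + N) ω) ≤ η := by
      refine le_trans (PrP_mono (Pb.const (by norm_num) (by norm_num)) ?_) hη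
      rintro ω _ ⟨i', hi', h1⟩
      refine ⟨i', hi', Or.inl (hbox.lab _ h1).1, ?_⟩
      obtain ⟨⟨m1, m2⟩, m3, m4⟩ := h1
      have q1 : (tv (vx (X.z ω i'))).1 = (vx (X.z ω i')).1 + (vx (X.z ω i')).2 := rfl
      have q2 : (tv (vx (X.z ω i'))).2 = (vx (X.z ω i')).2 - (vx (X.z ω i')).1 := rfl
      unfold Near at hnear ⊢
      unfold tv at hnear
      simp only [abs_le] at hnear ⊢
      rw [q1, q2]
      omega
    have hN0 : 0 ≤ (N : ℝ) ^ (2 / 3 : ℝ) := by positivity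
    calc ‖Ht (tv u) - Ht (tv (a, b))‖ ≤ C * (N : ℝ) ^ (2 / 3 : ℝ) * η :=
          s3.trans (mul_le_mul_of_nonneg_left s4 (by positivity))
      _ ≤ (C + 1) * η * (N : ℝ) ^ (2 / 3 : ℝ) := by nlinarith [mul_nonneg hη0 hN0]
  · intro c hc hnear
    rw [← hE] at hc
    rw [hG c hc]
    have h1 : ‖X.inc c‖ ≤ η := by
      refine (X.inc_norm c).trans (le_trans ?_ hη)
      refine PrP_mono (Pb.const (by norm_num) (by norm_num)) ?_
      rintro ω _ ⟨i, hi, rfl⟩
      exact ⟨i, hi, hc, hnear.mono (by omega)⟩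
    nlinarith

/-- `RegBound` from the a priori bound. -/
theorem regBound_one {K : Env → Prop} {C : ℝ} (hC : 0 ≤ C)
    (hAP : ∀ Z, K Z → ∀ (a b : ℤ) (N : ℕ), Bx (a - N) (a + N) (b - N) (b + N) ⊆ Z.E →
      ∀ Hv Hf, Z.Prim (a - N) (a + N) (b - N) (b + N) Hv Hf → ∀ u v : ℤ × ℤ, Qt a N u.1 →
      Qt b N u.2 → Qt a N v.1 → Qt b N v.2 → ‖Hv u - Hv v‖ ≤ C * (N : ℝ) ^ (2 / 3 : ℝ))
    {Q : Finset Cell} {n : ℤ} (hn : 0 < n) {X : Env} (hK : K X) (hE : X.E = TL Q n)
    {Ht : ℤ × ℤ → ℂ} (hG : GPrim X Ht) (L : ℤ) (p : ℤ × ℤ) :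
    RegBound Q (fun i => n * i) (fun i => n * i) L p (50 * (C + 1)) Ht := by
  refine regBound_of_box hn (by positivity) ?_ ?_
  · intro a b N hN1 hbox hnear u hu1 hu2
    rw [← hE] at hbox
    have hq0 : ∀ a : ℤ, Qt a N a := by intro a; unfold Qt; simp
    have s3 := hAP X hK a b N hbox.sub _ _ (prim_of_gprim hG hbox.sub) u (a, b) hu1 hu2 (hq0 _)
      (hq0 _)
    refine s3.trans (mul_le_mul_of_nonneg_right (by linarith) (by positivity))
  · intro c hc hnear
    rw [← hE] at hc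
    rw [hG c hc]
    exact (X.inc_norm_le_one c).trans (by linarith)

/-- **Visit form** with the constants first. -/
theorem visitForm {K : Env → Prop} (hAP : AP K)
    (hfr : ∀ Z, K Z → ∀ a b c d : ℤ, ∀ ω1 ⊆ Z.E \ Bx a b c d, K (Z.freeze (Bx a b c d) ω1)) :
    ∃ C > (0 : ℝ), ∀ (P : PType) (h : ℕ), 1 ≤ h → ∀ X, K X → X.E = TL P.Q (2 * h) → ∀ Ht,
      GPrim X Ht → ∀ (L : ℤ) (p : ℤ × ℤ) (η : ℝ),
      PrP (fun _ => 1 / 2) X.E (VT X (L + 2) p) ≤ η →
      RegBound P.Q (fun i => 2 * h * i) (fun i => 2 * h * i) L p (C * η) Ht := by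
  obtain ⟨C, hC, hAP⟩ := hAP
  refine ⟨50 * (C + 1), by positivity, ?_⟩
  intro P h hh X hK hE Ht hG L p η hη
  have := regBound_of_visit hC.le hAP hfr (n := 2 * h) (by positivity) hK hE hG hη
  have e : 50 * (C + 1) * η = 50 * ((C + 1) * η) := by ring
  rw [e]
  exact this

/-- The columns and rows have width `2 h`. -/
lemma wide_tile (Q : Finset Cell) {n w : ℤ} (hw : w ≤ n) :
    Wide Q (fun i => n * i) (fun i => n * i) w := by
  constructor <;> intro i _ _ <;> simp only <;> linarith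

/-- **Statement (4a-2)**: Hölder bound up to the boundary. -/
theorem holdOK (P : PType) {K : Env → Prop} (h : AP K) : HoldOK P K := by
  obtain ⟨C, hC, hAP⟩ := h
  refine ⟨220 * (50 * (C + 1)), by positivity, 1 / 8, by norm_num, 1, ?_⟩
  intro h hh X hK hE Ht hG p q hp hq hpq
  have hn : (0 : ℤ) < 2 * h := by positivity
  have hR := regBound_one hC.le hAP hn hK hE hG (9 * (h / 4 : ℕ)) p
  refine hR.holder' (by positivity) (ρ := h / 4) (wide_tile P.Q (by omega)) hp hq ?_ ?_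
  · have e1 : |(p.1 : ℝ) - q.1| ≤ ‖lat p - lat q‖ := by
      have := Complex.abs_re_le_norm (lat p - lat q)
      simpa [lat] using this
    have e2 : |(p.2 : ℝ) - q.2| ≤ ‖lat p - lat q‖ := by
      have := Complex.abs_im_le_norm (lat p - lat q)
      simpa [lat] using this
    have f1 : 8 * |p.1 - q.1| ≤ (h : ℤ) := by
      have : 8 * |(p.1 : ℝ) - q.1| ≤ h := by linarith
      exact_mod_cast this
    have f2 : 8 * |p.2 - q.2| ≤ (h : ℤ) := by
      have : 8 * |(p.2 : ℝ) - q.2| ≤ h := by linarith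
      exact_mod_cast this
    unfold Near
    constructor <;> omega
  · unfold Near
    simp

end Pool.Agent.H76.FM
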