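import Mathlib
import Pool.Agent.H76.FM.Hold
import Pool.Agent.Q1.M6c.APMain

set_option autoImplicit false
open Finset

/-! # The bounds in the tile frame for the plane environments, without hypotheses -/

namespace Pool.Agent.H76.FM

open Pool.Agent.H75.Perc hiding WL CT hh ph
open Pool.Agent.H75.TwoArm Pool.Agent.H75.Four Pool.Agent.H69.Q1 Pool.Agent.Q1 Pool.Agent.H99.NC
open Pool.Agent.Q1.M4 (Cell PType RegBound)
open Pool.Agent.H33.Q1
open Pool.Agent.H21.FM
open Pool.Agent.Q1.M6c (PlaneK ap_planeK planeK_freeze)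

/-- **Statement (4a-2)** for the plane environments. -/
theorem holdOK_plane (P : PType) : HoldOK P PlaneK := holdOK P ap_planeK

/-- **Visit form** for the plane environments. -/
theorem visitForm_plane :
    ∃ C > (0 : ℝ), ∀ (P : PType) (h : ℕ), 1 ≤ h → ∀ X, PlaneK X → X.E = TL P.Q (2 * h) → ∀ Ht,
      GPrim X Ht → ∀ (L : ℤ) (p : ℤ × ℤ) (η : ℝ),
      PrP (fun _ => 1 / 2) X.E (VT X (L + 2) p) ≤ η →
      RegBound P.Q (fun i => 2 * h * i) (fun i => 2 * h * i) L p (C * η) Ht :=
  visitForm ap_planeK fun _ hZ _ _ _ _ ω1 _ => planeK_freeze hZ _ ω1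

end Pool.Agent.H76.FM
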